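import Pool.Agent.H54.RH.Targets
import Pool.Agent.H86.PMF.TR2
import Pool.Agent.H86.PMF.TR3
import Pool.Agent.H86.PMF.TR4

/-!
Board `rhx_modules`, row GE: the surface in Euclidean space.
-/

set_option autoImplicit false

namespace Pool.Agent.H79.RHX

open Pool.Agent.H54.RH
open Pool.Agent.H54.PM (body IsGon IsEdge Un IsPM ver edg chi Ori imf Inj2)

theorem Lm_inj (n : ℕ) (x : Fin n → ℝ) (h : Lm n x = 0) : x = 0 := by
  unfold Lm at h
  have h1 : (Real.sqrt 2)⁻¹ • ((EuclideanSpace.equiv (Fin n) ℝ).symm x) = 0 := h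
  have h2 : (Real.sqrt 2)⁻¹ ≠ 0 := inv_ne_zero (Real.sqrt_ne_zero'.2 two_pos)
  rcases smul_eq_zero.1 h1 with h3 | h3
  · exact absurd h3 h2
  · have h4 := (EuclideanSpace.equiv (Fin n) ℝ).symm.map_eq_zero_iff.1 h3
    exact h4

open Classical in
theorem imf_ne {E G : Type} [NormedAddCommGroup E] [NormedSpace ℝ E] [NormedAddCommGroup G]
    [NormedSpace ℝ G] (L : E →L[ℝ] G) (F : Finset (Finset E)) (hF : F.Nonempty) :
    (imf L F).Nonempty := by
  unfold imf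
  exact hF.image _

open Classical in
theorem mem_imf {E G : Type} [NormedAddCommGroup E] [NormedSpace ℝ E] [NormedAddCommGroup G]
    [NormedSpace ℝ G] (L : E →L[ℝ] G) (F : Finset (Finset E)) (A' : Finset G)
    (h : A' ∈ imf L F) : ∃ A ∈ F, ∀ inst : DecidableEq G, A' = @Finset.image _ _ inst L A := by
  unfold imf at h
  obtain ⟨A, hA, rfl⟩ := Finset.mem_image.1 h
  refine ⟨A, hA, fun inst => ?_⟩
  ext x
  simp only [Finset.mem_image]

theorem pf_GE (h1 : T_HG) (h2 : T_HX) (h3 : T_MF) (h4 : T_CN) (h5 : T_CT) (h6 : T_OR)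
    (h7 : T_RG) : T_GE := by
  classical
  intro n b M hM
  have hmem : ∀ A, A ∈ hfam M ↔ ∃ h ∈ M, hf h = A := by
    intro A
    unfold hfam
    rw [Finset.mem_image]
  have hpm : IsPM (hfam M) := by
    refine ⟨?_, ?_, ?_, ?_, ?_⟩
    · obtain ⟨g, hg⟩ := hM.ne
      exact ⟨hf g, (hmem _).2 ⟨g, hg, rfl⟩⟩
    · intro A hA
      obtain ⟨g, hg, rfl⟩ := (hmem A).1 hA
      exact ⟨6, h1 n g (hM.three g hg).1⟩
    · intro A hA B hB hne
      obtain ⟨g, hg, rfl⟩ := (hmem A).1 hA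
      obtain ⟨h, hh, rfl⟩ := (hmem B).1 hB
      exact (h2 n g h (hM.three g hg).1 (hM.three h hh).1
        ((hM.three g hg).2.trans (hM.three h hh).2.symm) (fun e => hne (by rw [e]))).1
    · intro A hA B hB hne u v _ _
      obtain ⟨g, hg, rfl⟩ := (hmem A).1 hA
      obtain ⟨h, hh, rfl⟩ := (hmem B).1 hB
      exact (h2 n g h (hM.three g hg).1 (hM.three h hh).1
        ((hM.three g hg).2.trans (hM.three h hh).2.symm) (fun e => hne (by rw [e]))).2.1
    · exact h3 n b M hM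
  have hI : Inj2 (Lm n) (hfam M) := fun _ _ _ _ x _ hx => Lm_inj n x hx
  have t1 := Pool.Agent.H86.PMF.pf_TR1
  obtain ⟨c1, c2⟩ := Pool.Agent.H86.PMF.pf_TR2 t1 _ _ (Lm n) (hfam M) hI hpm
  obtain ⟨φ⟩ := Pool.Agent.H86.PMF.pf_TR3 t1 _ _ (Lm n) (hfam M) hI
  obtain ⟨d1, d2⟩ := Pool.Agent.H86.PMF.pf_TR4 t1 _ _ (Lm n) (hfam M) hI
  have hreg : ∀ A ∈ imf (Lm n) (hfam M), IsRegHex A := by
    intro A hA
    obtain ⟨B, hB, hAB⟩ := mem_imf (Lm n) (hfam M) A hA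
    obtain ⟨g, hg, rfl⟩ := (hmem B).1 hB
    rw [hAB _]
    exact h7 n g (hM.three g hg).1
  refine ⟨imf (Lm n) (hfam M), ⟨?_, ?_, c1, c2, ?_⟩, ?_, hreg, ?_, ?_⟩
  · exact imf_ne (Lm n) (hfam M) hpm.ne
  · intro A hA
    exact ⟨6, (hreg A hA).1⟩
  · intro x
    obtain ⟨e, he⟩ := hpm.mfd (φ x)
    exact ⟨φ.transOpenPartialHomeomorph e, he⟩
  · have hc := h4 n b M hM
    rw [isConnected_iff_connectedSpace] at hc ⊢
    exact φ.symm.surjective.connectedSpace φ.symm.continuous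
  · obtain ⟨e1, e2, e3⟩ := h5 n b M hM
    rw [d1]
    unfold chi cx
    rw [e1, e2, e3]
    push_cast
    ring
  · rw [d2]
    exact h6 n b M hM

end Pool.Agent.H79.RHX
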