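import Pool.Agent.H54.RH.Targets

/-!
Board `rhx_modules`, row K8: soundness of the check of a full word.
-/

set_option autoImplicit false

namespace Pool.Agent.H79.RHX

open Pool.Agent.H54.RH

theorem cnt_act {n : ℕ} (h : W n) (hd : ∀ t : Fin n, dg (cd h) t.val = (h t).val) :
    cnt n (cd h) 1 = (act h).card := by
  classical
  unfold cnt
  rw [← List.toFinset_card_of_nodup (List.Nodup.filter _ List.nodup_range),
    ← Finset.card_map Fin.valEmbedding]
  congr 1
  ext t
  rw [List.mem_toFinset, List.mem_filter, List.mem_range, Finset.mem_map]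
  constructor
  · rintro ⟨h1, h2⟩
    refine ⟨⟨t, h1⟩, ?_, rfl⟩
    have h3 := hd ⟨t, h1⟩
    have h4 : dg (cd h) t = 1 := by simpa using h2
    unfold act
    rw [Finset.mem_filter]
    refine ⟨Finset.mem_univ _, ?_⟩
    apply Fin.ext
    rw [← h3]
    exact h4
  · rintro ⟨u, h1, rfl⟩
    refine ⟨u.2, ?_⟩
    unfold act at h1
    rw [Finset.mem_filter] at h1
    have h3 := hd u
    rw [h1.2] at h3
    have h4 : dg (cd h) (u : ℕ) = 1 := h3
    simpa using h4

theorem cd_update {n : ℕ} (q : W n) (w : Fin n) (hw : q w = 1) :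
    cd (Function.update q w 2) = cd q + 3 ^ w.val := by
  classical
  unfold cd
  have h1 : ∀ t : Fin n, (Function.update q w 2 t).val * 3 ^ t.val =
      (q t).val * 3 ^ t.val + (if t = w then 3 ^ w.val else 0) := by
    intro t
    by_cases ht : t = w
    · subst ht
      rw [Function.update_self, hw, if_pos rfl]
      change 2 * 3 ^ t.val = 1 * 3 ^ t.val + 3 ^ t.val
      ring
    · rw [Function.update_of_ne ht, if_neg ht, add_zero]
  rw [Finset.sum_congr rfl fun t _ => h1 t, Finset.sum_add_distrib, Finset.sum_ite_eq' ,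
    if_pos (Finset.mem_univ _)]

theorem mem_MS {n m : ℕ} (h : W n) : h ∈ MS n m ↔ m.testBit (cd h) = true := by
  unfold MS
  rw [Finset.mem_filter]
  exact ⟨fun h => h.2, fun h => ⟨Finset.mem_univ _, h⟩⟩

theorem pf_K8 (h0 : T_K0) : T_K8 := by
  intro n m s q hck
  unfold ck8 at hck
  rw [Bool.and_eq_true, Bool.and_eq_true, Bool.and_eq_true] at hck
  obtain ⟨⟨⟨h1, h2⟩, h3⟩, h4⟩ := hck
  have hlt : q < 3 ^ n := by
    rw [Nat.blt_eq] at h1
    exact h1
  obtain ⟨q', rfl⟩ := (h0 n (fun _ => 0)).2.2.1 q hlt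
  obtain ⟨-, hd, -, -, -⟩ := h0 n q'
  have h5 : (act q').card = 4 := by
    rw [← cnt_act q' hd]
    simpa using h2
  have h6 : ∀ w : Fin n, q' w = 1 → m.testBit (cd q' + 3 ^ w.val) = true ∧
      s.testBit (cd q' + 3 ^ w.val) = false := by
    intro w hw
    rw [List.all_eq_true] at h3
    have h7 := h3 w.val (List.mem_range.2 w.2)
    have h8 : dg (cd q') w.val = 1 := by
      rw [hd, hw]
      rfl
    rw [h8] at h7
    simpa using h7
  refine ⟨q', ⟨h5, ?_⟩, ?_, ?_⟩
  · intro w hw
    rw [mem_MS, cd_update q' w hw]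
    exact (h6 w hw).1
  · intro h hh
    rw [mem_MS] at hh ⊢
    have h7 : s &&& m = s := by simpa using h4
    rw [← h7, Nat.testBit_and, Bool.and_eq_true] at hh
    exact hh.2
  · intro w hw hc
    rw [mem_MS, cd_update q' w hw, (h6 w hw).2] at hc
    exact Bool.false_ne_true hc

end Pool.Agent.H79.RHX
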